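import Pool.Agent.H86.TzC

set_option autoImplicit false

namespace Pool.Agent.Results.MP_70c392_co.FiniteSurv

open Pool.Agent.H86.Surv

theorem result : ∃ (V : Type) (G : SimpleGraph V), Admissible G ∧ ¬ Liouville G ∧ survival G ≤ 6 :=
  ⟨_, TZ.G2, TZ.adm2, TZ.not_liouville, TZ.survival2⟩

end Pool.Agent.Results.MP_70c392_co.FiniteSurv
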